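import Pool.Agent.Y904.TO.TF

/-!
# `S(x) = ∑_{n ≤ x} (-2)^Ω(n)`: `α = limsup |S(x)|/x` is finite, and a formula for it

Write `T(x)` for the part of the sum with `n` odd, and, for `1 ≤ u < 2`,
`A(u) = ∑_{j ≥ 0} (-1)^j T(2^j u)/(2^j u)`. The series converges absolutely, `A` is bounded,
`S(2^k u)/(2^k u) = (-1)^k A(u) + O_B((k+1)^(-B))` uniformly in `u`, for every `B`, and hence
`limsup S(x)/x = - liminf S(x)/x = α = sup_{1 ≤ u < 2} |A(u)| < ∞`; in particular `S(x) = O(x)`.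

Proof. The Dirichlet series of the odd part is `ζ(s)^(-2)` times a Dirichlet series which converges
absolutely for `Re s ≥ 3/4`; the Siegel-Walfisz theorem for the Moebius function (the prime number
theorem with all powers of the logarithm) gives `T(x) = O_B(x / log(x)^B)`, and `S(x) = T(x) - 2 S(x/2)`.
-/

set_option autoImplicit false

open Finset ArithmeticFunction Filter Topology

namespace Pool.Agent.Results.MP_88bd62_nt.FiniteLimsupFormula

/-- `S(x) = ∑_{1 ≤ n ≤ x} (-2)^Ω(n)` -/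
noncomputable def S (x : ℝ) : ℝ := ∑ n ∈ Icc 1 ⌊x⌋₊, (-2 : ℝ) ^ (cardFactors n)

/-- the same sum over the odd `n` -/
noncomputable def T (x : ℝ) : ℝ :=
  ∑ n ∈ (Icc 1 ⌊x⌋₊).filter (fun n => n % 2 = 1), (-2 : ℝ) ^ (cardFactors n)

/-- the limiting function `A(u) = ∑_{j ≥ 0} (-1)^j T(2^j u)/(2^j u)` -/
noncomputable def A (u : ℝ) : ℝ := ∑' j : ℕ, (-1) ^ j * (T (2 ^ j * u) / (2 ^ j * u))

/-- `α = limsup |S(x)|/x ∈ [0, ∞]` -/
noncomputable def alpha : EReal := limsup (fun x : ℝ => ((|S x| / x : ℝ) : EReal)) atTop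

open Pool.Agent.Y904.TO in
theorem low (w : ℝ → ℝ) (x : ℕ → ℝ) (hx : Tendsto x atTop atTop) (a : ℝ)
    (h : Tendsto (fun k => w (x k)) atTop (𝓝 a)) :
    (a : EReal) ≤ limsup (fun x : ℝ => ((w x : ℝ) : EReal)) atTop ∧
    liminf (fun x : ℝ => ((w x : ℝ) : EReal)) atTop ≤ (a : EReal) := by
  constructor
  · by_contra hc
    rw [not_le] at hc
    obtain ⟨c, h1, h2⟩ := EReal.lt_iff_exists_real_btwn.1 hc
    have h3 : ∀ᶠ x : ℝ in atTop, ((w x : ℝ) : EReal) < (c : EReal) := eventually_lt_of_limsup_lt h1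
    have h4 : ∀ᶠ k : ℕ in atTop, w (x k) ≤ c := by
      filter_upwards [hx.eventually h3] with k hk
      exact (EReal.coe_lt_coe_iff.1 hk).le
    have h5 := le_of_tendsto h h4
    have h6 : c < a := EReal.coe_lt_coe_iff.1 h2
    linarith
  · by_contra hc
    rw [not_le] at hc
    obtain ⟨c, h1, h2⟩ := EReal.lt_iff_exists_real_btwn.1 hc
    have h3 : ∀ᶠ x : ℝ in atTop, (c : EReal) < ((w x : ℝ) : EReal) := eventually_lt_of_lt_liminf h2
    have h4 : ∀ᶠ k : ℕ in atTop, c ≤ w (x k) := by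
      filter_upwards [hx.eventually h3] with k hk
      exact (EReal.coe_lt_coe_iff.1 hk).le
    have h5 := ge_of_tendsto h h4
    have h6 : a < c := EReal.coe_lt_coe_iff.1 h1
    linarith

open Pool.Agent.Y904.TO in
theorem pick (u : ℝ) : ∃ e : ℕ, (-1 : ℝ) ^ e * AA u = |AA u| := by
  rcases le_total 0 (AA u) with h | h
  · exact ⟨0, by rw [pow_zero, one_mul, abs_of_nonneg h]⟩
  · exact ⟨1, by rw [pow_one, abs_of_nonpos h]; ring⟩

open Pool.Agent.Y904.TO in
theorem pick' (u : ℝ) : ∃ e : ℕ, (-1 : ℝ) ^ e * AA u = -|AA u| := by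
  rcases le_total 0 (AA u) with h | h
  · exact ⟨1, by rw [pow_one, abs_of_nonneg h]; ring⟩
  · exact ⟨0, by rw [pow_zero, one_mul, abs_of_nonpos h, neg_neg]⟩

theorem hS (x : ℝ) : S x = Pool.Agent.H295R3.W.S x := rfl

theorem hT (x : ℝ) : T x = Pool.Agent.H295R3.W.T x := rfl

theorem hA (u : ℝ) : A u = Pool.Agent.Y904.TO.AA u := rfl

open Pool.Agent.Y904.TO in
theorem alpha_le : alpha ≤ (sig : EReal) := by
  rw [← EReal.le_of_forall_lt_iff_le]
  intro z hz
  have hz' : sig < z := EReal.coe_lt_coe_iff.1 hz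
  refine limsup_le_of_le (by isBoundedDefault) ?_
  filter_upwards [eventually_le z hz'] with x hx
  exact EReal.coe_le_coe_iff.2 hx

open Pool.Agent.Y904.TO in
theorem sig_le : (sig : EReal) ≤ limsup (fun x : ℝ => ((S x / x : ℝ) : EReal)) atTop := by
  rw [← EReal.ge_of_forall_gt_iff_ge]
  intro z hz
  have hz' : z < sig := EReal.coe_lt_coe_iff.1 hz
  have : Nonempty (Set.Ico (1:ℝ) 2) := ⟨⟨1, le_rfl, by norm_num⟩⟩
  obtain ⟨u, hu⟩ := exists_lt_of_lt_ciSup (show z < ⨆ u : Set.Ico (1:ℝ) 2, |AA u| from hz')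
  obtain ⟨e, he⟩ := pick u
  have h1 := (low (fun x => S x / x) _ (dy_atTop (u := u) u.2.1 e) _
    (tendsto_dy (u := u) u.2.1 u.2.2 e)).1
  rw [he] at h1
  exact (EReal.coe_le_coe_iff.2 hu.le).trans h1

open Pool.Agent.Y904.TO in
theorem le_neg_sig : liminf (fun x : ℝ => ((S x / x : ℝ) : EReal)) atTop ≤ ((-sig : ℝ) : EReal) := by
  rw [← EReal.le_of_forall_lt_iff_le]
  intro z hz
  have hz' : -sig < z := EReal.coe_lt_coe_iff.1 hz
  have : Nonempty (Set.Ico (1:ℝ) 2) := ⟨⟨1, le_rfl, by norm_num⟩⟩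
  obtain ⟨u, hu⟩ := exists_lt_of_lt_ciSup
    (show -z < ⨆ u : Set.Ico (1:ℝ) 2, |AA u| from (by have : -z < sig := by linarith
                                                      exact this))
  obtain ⟨e, he⟩ := pick' u
  have h1 := (low (fun x => S x / x) _ (dy_atTop (u := u) u.2.1 e) _
    (tendsto_dy (u := u) u.2.1 u.2.2 e)).2
  rw [he] at h1
  refine h1.trans (EReal.coe_le_coe_iff.2 ?_)
  linarith

open Pool.Agent.Y904.TO in
theorem neg_sig_le : ((-sig : ℝ) : EReal) ≤ liminf (fun x : ℝ => ((S x / x : ℝ) : EReal)) atTop := by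
  rw [← EReal.ge_of_forall_gt_iff_ge]
  intro z hz
  have hz' : z < -sig := EReal.coe_lt_coe_iff.1 hz
  refine le_liminf_of_le (by isBoundedDefault) ?_
  filter_upwards [eventually_le (-z) (by linarith), eventually_gt_atTop (0:ℝ)] with x hx hx0
  apply EReal.coe_le_coe_iff.2
  have h1 : |S x / x| ≤ -z := by rw [abs_div, abs_of_pos hx0]; exact hx
  linarith [(abs_le.1 h1).1]

theorem limsup_le_alpha : limsup (fun x : ℝ => ((S x / x : ℝ) : EReal)) atTop ≤ alpha := by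
  unfold alpha
  refine limsup_le_limsup ?_ (by isBoundedDefault) (by isBoundedDefault)
  filter_upwards [eventually_gt_atTop (0:ℝ)] with x hx0
  apply EReal.coe_le_coe_iff.2
  exact div_le_div_of_nonneg_right (le_abs_self _) hx0.le

open Pool.Agent.Y904.TO in
theorem result :
    (∃ C : ℝ, ∀ x : ℝ, 1 ≤ x → |S x| ≤ C * x) ∧
    (∀ u : ℝ, 1 ≤ u → Summable (fun j : ℕ => |T (2 ^ j * u) / (2 ^ j * u)|)) ∧
    (∀ B : ℕ, ∃ C : ℝ, ∀ k : ℕ, ∀ u : ℝ, 1 ≤ u → u < 2 →
      |S (2 ^ k * u) / (2 ^ k * u) - (-1) ^ k * A u| ≤ C / ((k : ℝ) + 1) ^ B) ∧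
    BddAbove (Set.range fun u : Set.Ico (1:ℝ) 2 => |A u|) ∧
    alpha = ((⨆ u : Set.Ico (1:ℝ) 2, |A u| : ℝ) : EReal) ∧
    limsup (fun x : ℝ => ((S x / x : ℝ) : EReal)) atTop = alpha ∧
    liminf (fun x : ℝ => ((S x / x : ℝ) : EReal)) atTop = -alpha := by
  have ha : alpha = (sig : EReal) := le_antisymm alpha_le (sig_le.trans limsup_le_alpha)
  refine ⟨?_, ?_, ?_, bdd, ha, ?_, ?_⟩
  · obtain ⟨C, -, h⟩ := S_bound
    exact ⟨C, h⟩
  · intro u hu
    refine (tt_summable_abs u hu).congr fun j => ?_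
    unfold tt
    rw [abs_mul, abs_pow, abs_neg, abs_one, one_pow, one_mul]
    rfl
  · intro B
    obtain ⟨C, -, h⟩ := rate B
    exact ⟨C, h⟩
  · exact le_antisymm limsup_le_alpha (by rw [ha]; exact sig_le)
  · rw [ha]
    exact le_antisymm le_neg_sig neg_sig_le

end Pool.Agent.Results.MP_88bd62_nt.FiniteLimsupFormula
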